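import Pool.Agent.Y143.Extreme

/-!
# Rigid-analytic spaces: purity of the extreme graded pieces of the monodromy filtration
-/

open Pool.Agent.Y143

universe u v

/-- Let `X` be a proper rigid-analytic space of dimension `n` with a strictly semistable formal
model with projective special fibre, and let `M` be the monodromy filtration on `H^m`. For all
integers `j` with `|j| ≥ min(m, 2 n - m) - 1` every eigenvalue of the Frobenius on `gr^M_j` is a
`q`-Weil number of weight `j + m`. -/
theorem Pool.Agent.Results.MP_0f76a4_ag.ExtremeWeights.result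
    {Ω : Type u} [Field Ω] [CharZero Ω] {Γ : Type} {n q : ℕ}
    (X : SemistableModel.{u, v} Ω Γ n q) (A : DivisorClasses X.toSpecialFibre)
    (m : ℕ) (M : ℤ → Submodule Ω (X.V m)) (hM : IsMonodromyFiltration (X.N m) M)
    (j : ℤ) (hj : min (m : ℤ) (2 * n - m) ≤ |j| + 1)
    (α : Ω) (x : X.V m) (hx : x ∈ M j) (hx' : x ∉ M (j - 1))
    (hα : X.actV m X.frob x - α • x ∈ M (j - 1)) :
    IsWeilNumber q (j + m) α :=
  X.pure_extreme A m hM j hj α x hx hx' hα
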