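import Pool.Agent.Y143.Middle

/-!
# Rigid-analytic spaces: purity in the middle degree
-/

open Pool.Agent.Y143

universe u v

/-- Let `X` be a proper rigid-analytic space of dimension `n` with a strictly semistable formal
model with projective special fibre, and let `M` be the monodromy filtration on the cohomology
`H^n` in the middle degree. For all integers `j` with `|j| ≥ n - 2` every eigenvalue of the Frobenius
on `gr^M_j H^n` is a `q`-Weil number of weight `j + n`. This holds also for `|j| = n - 3`, if the
Tate conjecture for divisors holds for the stratum `Y^(n-2)` (of dimension three) and all the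
eigenvalues of the Frobenius on the image of `H^2(Y^(n-2))` in `H^2(Y^(n-1))` are Tate numbers. -/
theorem Pool.Agent.Results.MP_0f76a4_ag.MiddleDegree.result
    {Ω : Type u} [Field Ω] [CharZero Ω] [IsAlgClosed Ω] {Γ : Type} {n q : ℕ}
    (X : SemistableModel.{u, v} Ω Γ n q) (A : DivisorClasses X.toSpecialFibre)
    (M : ℤ → Submodule Ω (X.V n)) (hM : IsMonodromyFiltration (X.N n) M)
    (j : ℤ) (hj : n ≤ j.natAbs + 2 ∨
      (n ≤ j.natAbs + 3 ∧ A.TateConj (n - 3) ∧ X.TateImage (n - 3)))
    (α : Ω) (x : X.V n) (hx : x ∈ M j) (hx' : x ∉ M (j - 1))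
    (hα : X.actV n X.frob x - α • x ∈ M (j - 1)) :
    IsWeilNumber q (j + n) α := by
  refine X.pure_settled A n hM j ?_ α x hx hx' hα
  rcases hj with h | ⟨h, hT⟩
  · exact Or.inr (Or.inl ⟨rfl, by omega⟩)
  · exact Or.inr (Or.inr ⟨rfl, by omega, hT⟩)
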