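import Pool.Agent.Y129.WM.RMain

/-!
# The weight-monodromy conjecture for one rigid space

Let `F` be a finite extension of `ℚ_p` with residue field of `q` elements, `ℓ ≠ p` and `K = ℚ_ℓ`.
We consider the smooth rigid-analytic varieties `X` over `F` (of pure dimension) which have an
admissible formal model with projective special fibre (they are proper), with
`H^m(X) = H^m(X_C, ℚ_ℓ)` and the Weil-Deligne representation `(ρ, N)` of the Weil group `Γ = W_F` on it;
the character `c` is `g ↦ |g|⁻¹`, with the value `q` at a geometric Frobenius `Fr`. A
`LocalCohomology s` consists of these data with the theorems on them which are used (they are listed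
in the structures `FullTheory` and `LocalCohomology`):

* products of such spaces are such spaces; the eigenvalues of Frobenius are Weil numbers of integral
  weights (Hansen and Zavyalov); exterior products, Poincaré duality (Huber, Berkovich), the action
  `act` of the classes on products as correspondences; a class on a product which acts as zero is zero
  (`detect`: formula of Künneth and Poincaré duality);
* there is a Tate curve `E` over `F`, with `H^0(E) = ⟨1⟩`, `H^1(E) = ⟨e0, e1⟩`, `N(e1) = e0`,
  `H^2(E) = ⟨pt⟩`;
* `Good` is the class of the abelian varieties `Y` over `F` with potentially good reduction: `N = 0`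
  on `H^n(Y)`, which is pure of weight `n`. `partner`: for every nonzero `ρ`-stable subspace `S` of
  weight `a` of `H^m(X)` there are such a `Y`, `n` and `j` with `a + n = 2 j`, and a nonzero element
  invariant under `ρ` in `H^n(Y) ⊗ S(j)`. (Over a finite extension `F'` of `F` the inertia group acts
  trivially on `S` through `ρ`. The eigenvalues of Frobenius on `S` are Weil numbers. By the theorem of
  Honda and Tate, powers of them are, up to powers of `q`, powers of eigenvalues of Frobenius on `H^1`
  of abelian varieties over finite fields, which can be lifted to abelian varieties with complex
  multiplication over an extension `F'`. Take for `Y` the restriction of scalars to `F` of a power `A`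
  of such an abelian variety; `H^n(Y)` contains the induced representation of `H^n(A)`.)

For one such space `X` we consider all the spaces `Z = Y_1 × ... × Y_k × X` (`C.Over X Z`), `k ≥ 0`,
where every factor `Y_i` is `E` or in `Good`, in other words the products `Z = B × X` with the abelian
varieties `B` which are products of copies of `E` and an abelian variety with potentially good
reduction.

Theorem. For every `X` (and `F`, `ℓ`) the following statements are equivalent.

1. `WeightMonodromy X`: the weight-monodromy conjecture (Q1) for `X`: for all `m` and `k`, `N ^ k` is
   an isomorphism from the part of weight `m + k` of `H^m(X)` to the part of weight `m - k`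
   (equivalently, `gr^M_j H^m(X)` is pure of weight `m + j` for all `m` and `j`).
2. `NoInvariants X`: `H^m(B × X)(r)` has no nonzero Galois invariants for all `B` and `m < 2 r`.
3. `NoCentralInvariants X`: for all `B` such that `n = dim (B × X)` is odd, `n = 2 r - 1`, there are no
   nonzero Galois invariants in `H^n(B × X)(r)`. In other words, the Euler factor
   `det(1 - Fr q^{-s} | H^n(B × X)^I)⁻¹` of the cohomology in the middle degree has no pole at the
   central point `s = (n + 1) / 2`.

So the conjecture for `X` is decided by the single eigenvalue `q ^ ((n+1)/2)` of Frobenius on the
inertia invariants of the middle cohomology of the products of `X` with abelian varieties. There are no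
hypotheses on `X`, and the statements are about the same `X`. This is the difference to the theorem of
`MP_cd312e_ag/GaloisInvariants`, where similar statements for all varieties together are compared,
and where the products `X × X` are used. For the analytification of a projective variety `X` the theorem is
about the conjecture of Deligne for `X`.

Proof. 1 ⟹ 2: the following property of `X` is inherited by `Y × X`, for `Y = E` and for `Y` in `Good`:
for all `k ≥ 1`, `N ^ k` is injective on the parts of weights at least `t + k` of `H^t(X)` for all `t`.
For this let `z` be a class on `Y × X` killed by `N ^ k` and consider the classes `act(z, x')`. For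
`Y = E` and `x = act(z, e1)`, `y = act(z, e0)` one has `N ^ k y = 0` and `N ^ k x = k N ^ (k-1) y`, hence
`N ^ (k+1) x = 0`, and `x = 0` because its weight is large enough, then `N ^ (k-1) y = 0` and `y = 0`. So
the kernel of `N` on `H^m(Z)` has only weights at most `m`.

2 ⟹ 1: let `x ≠ 0` be of weight `t + k + 1` in `H^t(Z)` with `N ^ (k+1) x = 0`, `k ≥ 1`. Then
`u = k e0 × x - e1 × N x` in `H^{t+1}(E × Z)` is not zero, of weight `(t + 1) + k`, and `N ^ k u = 0`. So
by induction we come to a vector of weight `t + 1` in the kernel of `N` on `H^t(Z)`, where
`Z = E^k × X`. For the part `S` of weight `t + 1` of this kernel let `z` be the invariant in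
`H^n(Y) ⊗ S(j)` given by `partner`. As `N = 0` on `H^n(Y)`, `z` is a nonzero Galois invariant in
`H^{n+t}(Y × Z)(j)`, where `n + t = 2 j - 1`. So 2 implies that `N ^ k` is injective on the part of weight
`m + k` of `H^m(X)` for all `m` and `k`, and it is surjective by Poincaré duality.

3 ⟹ 2: multiply an invariant with classes `e0`, `pt` and `1` in the cohomology of copies of `E`.
-/

set_option autoImplicit false

namespace Pool.Agent.Results.MP_0f76a4_ag.OneSpace

open Pool.Agent.Y129.WM

/-- For every `X` the weight-monodromy conjecture for `X` is equivalent to the vanishing of the Galois
invariants of `H^m(Z)(r)`, `m < 2 r`, for all products `Z` of `X` with copies of the Tate curve and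
abelian varieties with potentially good reduction, and also to the vanishing of those in the middle
degree `m = dim Z = 2 r - 1` only. -/
theorem result {K Γ : Type} [Field K] [CharZero K] [Group Γ] {s : WeilGroup K Γ}
    (C : LocalCohomology s) (X : C.Obj) :
    (C.WeightMonodromy X ↔ C.NoInvariants X) ∧
      (C.WeightMonodromy X ↔ C.NoCentralInvariants X) :=
  C.main X

end Pool.Agent.Results.MP_0f76a4_ag.OneSpace
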