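import Pool.Agent.Y143.Rigid

/-!
# The weight-monodromy conjecture for rigid-analytic surfaces
-/

open Pool.Agent.Y143

universe u v

/-- Let `X` be a proper rigid-analytic surface with a strictly semistable formal model with
projective special fibre. Then `H^m` is mw pure for all `m`. -/
theorem Pool.Agent.Results.MP_0f76a4_ag.Surfaces.result
    {Ω : Type u} [Field Ω] [CharZero Ω] {Γ : Type} {q : ℕ}
    (X : SemistableModel.{u, v} Ω Γ 2 q) (A : DivisorClasses X.toSpecialFibre) (m : ℕ) :
    IsMWPure q m (X.actV m X.frob) (X.N m) :=
  X.mwPure_surface A m
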